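import Pool.Agent.H258R2.Calib.Lemma

/-!
# The ladder with columns `{(2k, 0), (2k, √3)}` and its calibration
-/

set_option autoImplicit false

open MeasureTheory Set

namespace Pool.Agent.H258R2.Calib

/-- rescaled and clamped height -/
noncomputable def hgt (y : ℝ) : ℝ := Real.sqrt 3 / 2 * (max 0 (min y (Real.sqrt 3)) - Real.sqrt 3 / 2)

/-- the building block of the calibration -/
noncomputable def F (t s : ℝ) : ℝ :=
  min |t| 2 / 2 + s / 2 + (|s + 3 / 4 * (1 - min |t| 2)| - |s - 3 / 4 * (1 - min |t| 2)|) / 4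

/-- the mixed term of the calibration on a slab -/
noncomputable def Dm (t s : ℝ) : ℝ := (|s + 3 / 4 * (1 - t)| - |s - 3 / 4 * (1 - t)|) / 2

lemma sqrt3_sq : Real.sqrt 3 * Real.sqrt 3 = 3 := Real.mul_self_sqrt (by norm_num)

lemma sqrt3_pos : 0 < Real.sqrt 3 := Real.sqrt_pos.2 (by norm_num)

lemma hgt_abs (y : ℝ) : |hgt y| ≤ 3 / 4 := by
  have h := sqrt3_sq
  have hp := sqrt3_pos
  have h1 : 0 ≤ max 0 (min y (Real.sqrt 3)) := le_max_left _ _
  have h2 : max 0 (min y (Real.sqrt 3)) ≤ Real.sqrt 3 := max_le hp.le (min_le_right _ _)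
  unfold hgt
  rw [abs_le]
  constructor <;> nlinarith

lemma hgt_lip (y y' : ℝ) : |hgt y - hgt y'| ≤ Real.sqrt 3 / 2 * |y - y'| := by
  have hp := sqrt3_pos
  have h1 : |max 0 (min y (Real.sqrt 3)) - max 0 (min y' (Real.sqrt 3))| ≤ |y - y'| := by
    refine (abs_max_sub_max_le_max _ _ _ _).trans ?_
    rw [sub_self, abs_zero]
    refine max_le (abs_nonneg _) ?_
    refine (abs_min_sub_min_le_max _ _ _ _).trans ?_
    rw [sub_self, abs_zero]
    exact max_le le_rfl (abs_nonneg _)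
  unfold hgt
  rw [← mul_sub, abs_mul, abs_of_pos (by positivity)]
  have h2 : max 0 (min y (Real.sqrt 3)) - Real.sqrt 3 / 2 -
      (max 0 (min y' (Real.sqrt 3)) - Real.sqrt 3 / 2) =
      max 0 (min y (Real.sqrt 3)) - max 0 (min y' (Real.sqrt 3)) := by ring
  rw [h2]
  exact mul_le_mul_of_nonneg_left h1 (by positivity)

lemma hgt_zero : hgt 0 = -(3 / 4) := by
  have h := sqrt3_sq
  have hp := sqrt3_pos
  unfold hgt
  rw [min_eq_left hp.le, max_self]
  nlinarith

lemma hgt_sqrt : hgt (Real.sqrt 3) = 3 / 4 := by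
  have h := sqrt3_sq
  have hp := sqrt3_pos
  unfold hgt
  rw [min_self, max_eq_right hp.le]
  nlinarith

lemma Dm_lip (t s t' s' : ℝ) : |Dm t s - Dm t' s'| ≤ max |s - s'| (3 / 4 * |t - t'|) := by
  unfold Dm
  set u := 3 / 4 * (1 - t) with hu
  set u' := 3 / 4 * (1 - t') with hu'
  have h1 : |(|s + u| - |s' + u'|)| ≤ |(s - s') + (u - u')| := by
    have := abs_abs_sub_abs_le_abs_sub (s + u) (s' + u')
    rwa [show s + u - (s' + u') = (s - s') + (u - u') by ring] at this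
  have h2 : |(|s - u| - |s' - u'|)| ≤ |(s - s') - (u - u')| := by
    have := abs_abs_sub_abs_le_abs_sub (s - u) (s' - u')
    rwa [show s - u - (s' - u') = (s - s') - (u - u') by ring] at this
  have h3 : |u - u'| = 3 / 4 * |t - t'| := by
    rw [show u - u' = 3 / 4 * (t' - t) by rw [hu, hu']; ring, abs_mul, abs_sub_comm t' t]
    norm_num
  rw [← h3]
  have h4 : |(s - s') + (u - u')| + |(s - s') - (u - u')| ≤ 2 * max |s - s'| |u - u'| := by
    rcases le_total (|s - s'|) (|u - u'|) with h | h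
    · rw [max_eq_right h]
      rcases abs_cases (s - s') with h5 | h5 <;> rcases abs_cases (u - u') with h6 | h6 <;>
      rcases abs_cases ((s - s') + (u - u')) with h7 | h7 <;>
      rcases abs_cases ((s - s') - (u - u')) with h8 | h8 <;> linarith
    · rw [max_eq_left h]
      rcases abs_cases (s - s') with h5 | h5 <;> rcases abs_cases (u - u') with h6 | h6 <;>
      rcases abs_cases ((s - s') + (u - u')) with h7 | h7 <;>
      rcases abs_cases ((s - s') - (u - u')) with h8 | h8 <;> linarith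
  rw [abs_le] at h1 h2 ⊢
  constructor <;> linarith [h1.1, h1.2, h2.1, h2.2]

/-- Euclidean length of the vector `(a, b)`. -/
noncomputable def R (a b : ℝ) : ℝ := Real.sqrt (a ^ 2 + b ^ 2)

lemma R_nonneg (a b : ℝ) : 0 ≤ R a b := Real.sqrt_nonneg _

lemma R_ge (a b c : ℝ) (_hc : 0 ≤ c) (h : c ^ 2 ≤ a ^ 2 + b ^ 2) : c ≤ R a b :=
  Real.le_sqrt_of_sq_le h

lemma R_abs_left (a b : ℝ) : |a| ≤ R a b := by
  apply R_ge _ _ _ (abs_nonneg _)
  rw [sq_abs]; nlinarith [sq_nonneg b]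

lemma R_abs_right (a b : ℝ) : |b| ≤ R a b := by
  apply R_ge _ _ _ (abs_nonneg _)
  rw [sq_abs]; nlinarith [sq_nonneg a]

/-- the four basic estimates -/
lemma basic (t t' y y' : ℝ) :
    |t - t'| ≤ R (t - t') (y - y') ∧
    |hgt y - hgt y'| ≤ R (t - t') (y - y') ∧
    |Dm t (hgt y) - Dm t' (hgt y')| ≤ R (t - t') (y - y') ∧
    (|t - t'| + |hgt y - hgt y'| + |Dm t (hgt y) - Dm t' (hgt y')|) / 2 ≤
      R (t - t') (y - y') := by
  have h3 := sqrt3_sq
  have hp := sqrt3_pos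
  have hs : Real.sqrt 3 ≤ 2 := by nlinarith
  have h1 := R_abs_left (t - t') (y - y')
  have h2 := R_abs_right (t - t') (y - y')
  have h4 := hgt_lip y y'
  have h5 : |hgt y - hgt y'| ≤ R (t - t') (y - y') := by
    refine h4.trans ?_
    nlinarith [abs_nonneg (y - y')]
  have h6 := Dm_lip t (hgt y) t' (hgt y')
  have h7 : |Dm t (hgt y) - Dm t' (hgt y')| ≤ R (t - t') (y - y') := by
    refine h6.trans (max_le h5 ?_)
    nlinarith [abs_nonneg (t - t')]
  refine ⟨h1, h5, h7, ?_⟩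
  have ha : 0 ≤ |t - t'| := abs_nonneg _
  have hb : 0 ≤ |y - y'| := abs_nonneg _
  rcases le_max_iff.1 h6 with h | h
  · have h8 : (|t - t'| + Real.sqrt 3 * |y - y'|) / 2 ≤ R (t - t') (y - y') := by
      apply R_ge _ _ _ (by positivity)
      rw [← sq_abs (t - t'), ← sq_abs (y - y')]
      nlinarith [sq_nonneg (Real.sqrt 3 * |t - t'| - |y - y'|)]
    linarith
  · have h8 : 7 / 8 * |t - t'| + Real.sqrt 3 / 4 * |y - y'| ≤ R (t - t') (y - y') := by
      apply R_ge _ _ _ (by positivity)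
      rw [← sq_abs (t - t'), ← sq_abs (y - y')]
      nlinarith [sq_nonneg (Real.sqrt 3 / 4 * |t - t'| - 7 / 8 * |y - y'|),
        sq_nonneg (|t - t'|), sq_nonneg (|y - y'|)]
    linarith

lemma F_right {t : ℝ} (h0 : 0 ≤ t) (h2 : t ≤ 2) (s : ℝ) : F t s = (t + s + Dm t s) / 2 := by
  unfold F Dm
  rw [abs_of_nonneg h0, min_eq_left h2]; ring

lemma Dm_neg (t s : ℝ) : Dm t (-s) = - Dm t s := by
  unfold Dm
  rw [show -s + 3 / 4 * (1 - t) = -(s - 3 / 4 * (1 - t)) by ring,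
    show -s - 3 / 4 * (1 - t) = -(s + 3 / 4 * (1 - t)) by ring, abs_neg, abs_neg]
  ring

lemma F_left {t : ℝ} (h0 : 0 ≤ t) (h2 : t ≤ 2) (s : ℝ) :
    F (t - 2) s = (2 - t + s - Dm t s) / 2 := by
  unfold F Dm
  rw [abs_of_nonpos (by linarith), min_eq_left (by linarith),
    show s + 3 / 4 * (1 - -(t - 2)) = s - 3 / 4 * (1 - t) by ring,
    show s - 3 / 4 * (1 - -(t - 2)) = s + 3 / 4 * (1 - t) by ring]
  ring

lemma F_far {t s : ℝ} (h : 2 ≤ |t|) (hs : |s| ≤ 3 / 4) : F t s = 1 := by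
  unfold F
  rw [abs_le] at hs
  rw [min_eq_right h, abs_of_nonpos (by linarith [hs.2]), abs_of_nonneg (by linarith [hs.1])]
  ring

lemma F_zero : F 0 (-(3 / 4)) = -(3 / 4) := by
  unfold F
  norm_num [abs_of_nonpos, abs_of_nonneg]

lemma F_zero' : F 0 (3 / 4) = 3 / 4 := by
  unfold F
  norm_num [abs_of_nonpos, abs_of_nonneg]

/-- the subset sums as functions of `(x, y)` -/
noncomputable def G (m : ℕ) (a b : ℕ → ℝ) (x y : ℝ) : ℝ :=
  ∑ k ∈ Finset.range m, (a k * F (x - 2 * k) (hgt y) + b k * F (x - 2 * k) (-hgt y))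

lemma G_slab {m : ℕ} (a b : ℕ → ℝ) (ha : ∀ k, a k = 0 ∨ a k = 1) (hb : ∀ k, b k = 0 ∨ b k = 1)
    {j : ℕ} (hj : j + 1 < m) {x x' : ℝ} (hx : 2 * (j : ℝ) ≤ x) (hx2 : x ≤ 2 * j + 2)
    (hx' : 2 * (j : ℝ) ≤ x') (hx2' : x' ≤ 2 * j + 2) (y y' : ℝ) :
    G m a b x y - G m a b x' y' ≤ R (x - x') (y - y') := by
  have hsub : ({j, j + 1} : Finset ℕ) ⊆ Finset.range m := by
    intro k hk
    simp only [Finset.mem_insert, Finset.mem_singleton] at hk
    rw [Finset.mem_range]
    rcases hk with rfl | rfl <;> omega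
  have hy := hgt_abs y
  have hy' := hgt_abs y'
  have hyn : |-hgt y| ≤ 3 / 4 := by rw [abs_neg]; exact hy
  have hyn' : |-hgt y'| ≤ 3 / 4 := by rw [abs_neg]; exact hy'
  have h1 : G m a b x y - G m a b x' y' = ∑ k ∈ ({j, j + 1} : Finset ℕ),
      ((a k * F (x - 2 * k) (hgt y) + b k * F (x - 2 * k) (-hgt y)) -
      (a k * F (x' - 2 * k) (hgt y') + b k * F (x' - 2 * k) (-hgt y'))) := by
    unfold G
    rw [← Finset.sum_sub_distrib]
    symm
    apply Finset.sum_subset hsub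
    intro k _ hk
    simp only [Finset.mem_insert, Finset.mem_singleton, not_or] at hk
    have hfar : ∀ z : ℝ, 2 * (j : ℝ) ≤ z → z ≤ 2 * j + 2 → 2 ≤ |z - 2 * k| := by
      intro z hz hz2
      rcases Nat.lt_or_ge k j with hkj | hkj
      · have : (k : ℝ) + 1 ≤ j := by exact_mod_cast hkj
        rw [le_abs]; left; linarith
      · have : j + 2 ≤ k := by omega
        have : (j : ℝ) + 2 ≤ k := by exact_mod_cast this
        rw [le_abs]; right; linarith
    rw [F_far (hfar x hx hx2) hy, F_far (hfar x hx hx2) hyn, F_far (hfar x' hx' hx2') hy',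
      F_far (hfar x' hx' hx2') hyn']
    ring
  rw [h1, Finset.sum_pair (by omega)]
  have e1 : x - 2 * ((j + 1 : ℕ) : ℝ) = (x - 2 * j) - 2 := by push_cast; ring
  have e2 : x' - 2 * ((j + 1 : ℕ) : ℝ) = (x' - 2 * j) - 2 := by push_cast; ring
  rw [e1, e2]
  set t := x - 2 * (j : ℝ) with ht
  set t' := x' - 2 * (j : ℝ) with ht'
  rw [show x - x' = t - t' by rw [ht, ht']; ring]
  have ht0 : 0 ≤ t := by rw [ht]; linarith
  have ht2 : t ≤ 2 := by rw [ht]; linarith
  have ht0' : 0 ≤ t' := by rw [ht']; linarith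
  have ht2' : t' ≤ 2 := by rw [ht']; linarith
  rw [F_right ht0 ht2, F_right ht0 ht2, F_right ht0' ht2', F_right ht0' ht2',
    F_left ht0 ht2, F_left ht0 ht2, F_left ht0' ht2', F_left ht0' ht2',
    Dm_neg, Dm_neg]
  obtain ⟨b1, b2, b3, b4⟩ := basic t t' y y'
  set ρ := R (t - t') (y - y') with hρ
  have hρ0 : 0 ≤ ρ := R_nonneg _ _
  have c1 := le_abs_self (t - t')
  have c2 := neg_abs_le (t - t')
  have c3 := le_abs_self (hgt y - hgt y')
  have c4 := neg_abs_le (hgt y - hgt y')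
  have c5 := le_abs_self (Dm t (hgt y) - Dm t' (hgt y'))
  have c6 := neg_abs_le (Dm t (hgt y) - Dm t' (hgt y'))
  rcases ha j with h1 | h1 <;> rcases ha (j + 1) with h2 | h2 <;>
    rcases hb j with h3 | h3 <;> rcases hb (j + 1) with h4 | h4 <;>
    rw [h1, h2, h3, h4] <;> linarith

lemma R_scale {c : ℝ} (hc : 0 ≤ c) (a b : ℝ) : R (c * a) (c * b) = c * R a b := by
  unfold R
  rw [show (c * a) ^ 2 + (c * b) ^ 2 = c ^ 2 * (a ^ 2 + b ^ 2) by ring,
    Real.sqrt_mul (sq_nonneg c), Real.sqrt_sq hc]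

lemma R_comm (a b : ℝ) : R (-a) (-b) = R a b := by
  unfold R; rw [neg_sq, neg_sq]

/-- gluing two strips -/
lemma glue (g : ℝ → ℝ → ℝ) {lo c hi : ℝ}
    (h1 : ∀ x y x' y', lo ≤ x → x ≤ c → lo ≤ x' → x' ≤ c → g x y - g x' y' ≤ R (x - x') (y - y'))
    (h2 : ∀ x y x' y', c ≤ x → x ≤ hi → c ≤ x' → x' ≤ hi → g x y - g x' y' ≤ R (x - x') (y - y'))
    (hlc : lo ≤ c) (hch : c ≤ hi) :
    ∀ x y x' y', lo ≤ x → x ≤ hi → lo ≤ x' → x' ≤ hi → g x y - g x' y' ≤ R (x - x') (y - y') := by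
  intro x y x' y' hx1 hx2 hx1' hx2'
  rcases le_total x c with hx | hx <;> rcases le_total x' c with hx' | hx'
  · exact h1 _ _ _ _ hx1 hx hx1' hx'
  · rcases eq_or_lt_of_le (hx.trans hx') with he | hlt
    · have hxc : x = c := le_antisymm hx (he ▸ hx')
      exact h2 _ _ _ _ hxc.ge hx2 hx' hx2'
    · set l := (c - x) / (x' - x) with hl
      have hd : 0 < x' - x := by linarith
      have hl0 : 0 ≤ l := div_nonneg (by linarith) hd.le
      have hl1 : l ≤ 1 := (div_le_one hd).2 (by linarith)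
      have hlc' : l * (x' - x) = c - x := div_mul_cancel₀ _ hd.ne'
      have e1 := h1 x y c (y + l * (y' - y)) hx1 hx hlc le_rfl
      have e2 := h2 c (y + l * (y' - y)) x' y' le_rfl hch hx' hx2'
      have r1 : R (x - c) (y - (y + l * (y' - y))) = l * R (x - x') (y - y') := by
        rw [← R_scale hl0]
        congr 1 <;> linarith
      have r2 : R (c - x') (y + l * (y' - y) - y') = (1 - l) * R (x - x') (y - y') := by
        rw [← R_scale (by linarith)]
        congr 1 <;> linarith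
      rw [r1] at e1
      rw [r2] at e2
      linarith
  · rcases eq_or_lt_of_le (hx'.trans hx) with he | hlt
    · have hxc : x' = c := le_antisymm hx' (he ▸ hx)
      exact h2 _ _ _ _ hx hx2 hxc.ge hx2'
    · set l := (c - x) / (x' - x) with hl
      have hd : x' - x < 0 := by linarith
      have hl0 : 0 ≤ l := div_nonneg_of_nonpos (by linarith) hd.le
      have hl1 : l ≤ 1 := (div_le_one_of_neg hd).2 (by linarith)
      have hlc' : l * (x' - x) = c - x := div_mul_cancel₀ _ hd.ne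
      have e1 := h2 x y c (y + l * (y' - y)) hx hx2 le_rfl hch
      have e2 := h1 c (y + l * (y' - y)) x' y' hlc le_rfl hx1' hx'
      have r1 : R (x - c) (y - (y + l * (y' - y))) = l * R (x - x') (y - y') := by
        rw [← R_scale hl0]
        congr 1 <;> linarith
      have r2 : R (c - x') (y + l * (y' - y) - y') = (1 - l) * R (x - x') (y - y') := by
        rw [← R_scale (by linarith)]
        congr 1 <;> linarith
      rw [r1] at e1
      rw [r2] at e2
      linarith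
  · exact h2 _ _ _ _ hx hx2 hx' hx2'

lemma G_lip {m : ℕ} (a b : ℕ → ℝ) (ha : ∀ k, a k = 0 ∨ a k = 1) (hb : ∀ k, b k = 0 ∨ b k = 1)
    (J : ℕ) (hJ : J + 1 < m) :
    ∀ x y x' y', 0 ≤ x → x ≤ 2 * (J : ℝ) + 2 → 0 ≤ x' → x' ≤ 2 * (J : ℝ) + 2 →
      G m a b x y - G m a b x' y' ≤ R (x - x') (y - y') := by
  induction J with
  | zero =>
    intro x y x' y' h1 h2 h3 h4
    exact G_slab a b ha hb hJ (by simpa using h1) (by simpa using h2) (by simpa using h3)
      (by simpa using h4) y y'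
  | succ J ih =>
    have h1 := ih (by omega)
    have h2 : ∀ x y x' y', 2 * (J : ℝ) + 2 ≤ x → x ≤ 2 * ((J + 1 : ℕ) : ℝ) + 2 →
        2 * (J : ℝ) + 2 ≤ x' → x' ≤ 2 * ((J + 1 : ℕ) : ℝ) + 2 →
        G m a b x y - G m a b x' y' ≤ R (x - x') (y - y') := by
      intro x y x' y' h3 h4 h5 h6
      refine G_slab a b ha hb hJ ?_ h4 ?_ h6 y y'
      · push_cast; linarith
      · push_cast; linarith
    exact glue _ h1 h2 (by positivity) (by push_cast; linarith)

end Pool.Agent.H258R2.Calib
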