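import Mathlib

/-!
# A calibration lower bound for the length of a connected set

If `φ i` are finitely many real functions such that every subset sum is `1`-Lipschitz, then a
connected set `S` containing the points `p i` and `r` has one-dimensional Hausdorff measure at
least `∑ i, (φ i r - φ i (p i))`.
-/

set_option autoImplicit false

open MeasureTheory Set
open scoped ENNReal NNReal

namespace Pool.Agent.H258R2.Calib

variable {X : Type*}

/-- Finite families of sets grown from the root `a` by successively adding sets that meet one of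
the sets already present. -/
inductive Conn (U : ℕ → Set X) (a : ℕ) : Finset ℕ → Prop
  | root : Conn U a {a}
  | add {V : Finset ℕ} {u v : ℕ} : Conn U a V → u ∈ V → v ∉ V → (U u ∩ U v).Nonempty →
      Conn U a (insert v V)

lemma Conn.extend {U : ℕ → Set X} {a : ℕ} {V : Finset ℕ} (hV : Conn U a V) {u v : ℕ}
    (hu : u ∈ V) (h : Relation.ReflTransGen (fun i j => (U i ∩ U j).Nonempty) u v) :
    ∃ V', V ⊆ V' ∧ v ∈ V' ∧ Conn U a V' := by
  induction h with
  | refl => exact ⟨V, subset_rfl, hu, hV⟩
  | @tail b c _ hbc ih =>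
    obtain ⟨V', h1, h2, h3⟩ := ih
    by_cases hc : c ∈ V'
    · exact ⟨V', h1, hc, h3⟩
    · exact ⟨insert c V', h1.trans (Finset.subset_insert _ _), Finset.mem_insert_self _ _,
        Conn.add h3 h2 hc hbc⟩

lemma Conn.root_mem {U : ℕ → Set X} {a : ℕ} {V : Finset ℕ} (hV : Conn U a V) : a ∈ V := by
  induction hV with
  | root => simp
  | add _ _ _ _ ih => exact Finset.mem_insert_of_mem ih

lemma Conn.exists_all {ι : Type*} [Fintype ι] (U : ℕ → Set X) (a : ℕ) (ν : ι → ℕ)
    (h : ∀ i, Relation.ReflTransGen (fun i j => (U i ∩ U j).Nonempty) a (ν i)) :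
    ∃ V, Conn U a V ∧ ∀ i, ν i ∈ V := by
  classical
  have key : ∀ s : Finset ι, ∃ V, Conn U a V ∧ ∀ i ∈ s, ν i ∈ V := by
    intro s
    induction s using Finset.induction_on with
    | empty => exact ⟨{a}, Conn.root, by simp⟩
    | insert i s _ ih =>
      obtain ⟨V, h1, h2⟩ := ih
      obtain ⟨V', h3, h4, h5⟩ := h1.extend h1.root_mem (h i)
      refine ⟨V', h5, ?_⟩
      intro j hj
      rcases Finset.mem_insert.1 hj with rfl | hj
      · exact h4
      · exact h3 (h2 j hj)
  obtain ⟨V, h1, h2⟩ := key Finset.univ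
  exact ⟨V, h1, fun i => h2 i (Finset.mem_univ i)⟩

lemma chain {S : Set X} [TopologicalSpace X] (hS : IsPreconnected S) (U : ℕ → Set X)
    (hU : ∀ n, IsOpen (U n)) (hcov : S ⊆ ⋃ n, U n) {a b : ℕ} {x y : X} (hx : x ∈ S)
    (hxa : x ∈ U a) (hy : y ∈ S) (hyb : y ∈ U b) :
    Relation.ReflTransGen (fun i j => (U i ∩ U j).Nonempty) a b := by
  by_contra hcon
  set R : Set ℕ := {n | Relation.ReflTransGen (fun i j => (U i ∩ U j).Nonempty) a n} with hR
  have h1 : IsOpen (⋃ n ∈ R, U n) := isOpen_biUnion fun n _ => hU n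
  have h2 : IsOpen (⋃ n ∈ Rᶜ, U n) := isOpen_biUnion fun n _ => hU n
  have h3 : S ⊆ (⋃ n ∈ R, U n) ∪ (⋃ n ∈ Rᶜ, U n) := by
    intro z hz
    obtain ⟨n, hn⟩ := mem_iUnion.1 (hcov hz)
    by_cases hnR : n ∈ R
    · exact Or.inl (mem_biUnion hnR hn)
    · exact Or.inr (mem_biUnion (show n ∈ Rᶜ from hnR) hn)
  obtain ⟨z, -, hz1, hz2⟩ := hS _ _ h1 h2 h3
    ⟨x, hx, mem_biUnion (show a ∈ R from Relation.ReflTransGen.refl) hxa⟩
    ⟨y, hy, mem_biUnion (show b ∈ Rᶜ from hcon) hyb⟩
  obtain ⟨n, hn, hzn⟩ := mem_iUnion₂.1 hz1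
  obtain ⟨k, hk, hzk⟩ := mem_iUnion₂.1 hz2
  exact hk (Relation.ReflTransGen.tail hn ⟨z, hzn, hzk⟩)

lemma key {ι : Type*} [Fintype ι] [PseudoMetricSpace X] [DecidableEq ι] [DecidableEq X]
    (U : ℕ → Set X) (a : ℕ)
    (φ : ι → X → ℝ) (hφ : ∀ I : Finset ι, ∀ x y, ∑ i ∈ I, (φ i x - φ i y) ≤ dist x y)
    (d : ℕ → ℝ) (hd : ∀ n, ∀ x ∈ U n, ∀ y ∈ U n, dist x y ≤ d n) (hd0 : ∀ n, 0 ≤ d n) (D : ℝ)
    (hD : ∀ n, d n ≤ D)
    (V : Finset ℕ) (hV : Conn U a V) (r : X) (hr : r ∈ U a) (ν : ι → ℕ) (τ : ι → X)
    (hν : ∀ i, ν i ∈ V) (hτ : ∀ i, τ i ∈ U (ν i)) :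
    ∑ i, (φ i r - φ i (τ i)) ≤ ∑ v ∈ V, d v + Fintype.card ι * D *
      (((Finset.univ.image (fun i => (ν i, τ i))).card : ℝ) - 1) := by
  have hD0 : 0 ≤ D := (hd0 0).trans (hD 0)
  have hone : ∀ i x y, φ i x - φ i y ≤ dist x y := by
    intro i x y
    simpa using hφ {i} x y
  rcases isEmpty_or_nonempty ι with hι | hι
  · simp
    exact Finset.sum_nonneg fun v _ => hd0 v
  induction hV generalizing ν τ with
  | root =>
    have hνa : ∀ i, ν i = a := fun i => by simpa using hν i
    have hcard : 0 < (Finset.univ.image (fun i => (ν i, τ i))).card := by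
      rw [Finset.card_pos]; simp
    by_cases hall : ∀ i j, τ i = τ j
    · obtain ⟨i0⟩ := hι
      have h1 : ∑ i, (φ i r - φ i (τ i)) ≤ d a := by
        calc ∑ i, (φ i r - φ i (τ i)) = ∑ i, (φ i r - φ i (τ i0)) := by
              refine Finset.sum_congr rfl fun i _ => ?_
              rw [hall i i0]
          _ ≤ dist r (τ i0) := hφ _ _ _
          _ ≤ d a := hd a _ hr _ (by rw [← hνa i0]; exact hτ i0)
      have h2 : (1 : ℝ) ≤ ((Finset.univ.image (fun i => (ν i, τ i))).card : ℝ) := by
        exact_mod_cast hcard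
      have h3 : 0 ≤ Fintype.card ι * D *
          (((Finset.univ.image (fun i => (ν i, τ i))).card : ℝ) - 1) := by
        apply mul_nonneg (by positivity); linarith
      simp only [Finset.sum_singleton]
      linarith
    · push Not at hall
      obtain ⟨i, j, hij⟩ := hall
      have h2 : 2 ≤ (Finset.univ.image (fun i => (ν i, τ i))).card := by
        rw [← Nat.lt_iff_add_one_le, Finset.one_lt_card]
        refine ⟨(ν i, τ i), Finset.mem_image_of_mem _ (Finset.mem_univ _), (ν j, τ j),
          Finset.mem_image_of_mem _ (Finset.mem_univ _), ?_⟩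
        intro h
        exact hij (congrArg Prod.snd h)
      have h2' : (2 : ℝ) ≤ ((Finset.univ.image (fun i => (ν i, τ i))).card : ℝ) := by
        exact_mod_cast h2
      have h1 : ∑ i, (φ i r - φ i (τ i)) ≤ Fintype.card ι * D := by
        calc ∑ i, (φ i r - φ i (τ i)) ≤ ∑ _i : ι, D := by
              refine Finset.sum_le_sum fun i _ => ?_
              refine (hone i _ _).trans ((hd a _ hr _ ?_).trans (hD a))
              rw [← hνa i]; exact hτ i
          _ = Fintype.card ι * D := by simp
      have h3 : Fintype.card ι * D * 1 ≤ Fintype.card ι * D *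
          (((Finset.univ.image (fun i => (ν i, τ i))).card : ℝ) - 1) := by
        apply mul_le_mul_of_nonneg_left _ (by positivity); linarith
      simp only [Finset.sum_singleton]
      have := hd0 a
      linarith
  | add hV hu hv huv ih =>
    rename_i V u v
    obtain ⟨q, hqu, hqv⟩ := huv
    set ν' : ι → ℕ := fun i => if ν i = v then u else ν i with hν'
    set τ' : ι → X := fun i => if ν i = v then q else τ i with hτ'
    have hν'V : ∀ i, ν' i ∈ V := by
      intro i
      simp only [hν']
      split_ifs with h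
      · exact hu
      · rcases Finset.mem_insert.1 (hν i) with h' | h'
        · exact absurd h' h
        · exact h'
    have hτ'U : ∀ i, τ' i ∈ U (ν' i) := by
      intro i
      simp only [hν', hτ']
      split_ifs with h
      · exact hqu
      · exact hτ i
    have hih := ih ν' τ' hν'V hτ'U
    rw [Finset.sum_insert hv]
    have hsplit : ∑ i, (φ i r - φ i (τ i)) = ∑ i, (φ i r - φ i (τ' i)) +
        ∑ i ∈ Finset.univ.filter (fun i => ν i = v), (φ i q - φ i (τ i)) := by
      rw [Finset.sum_filter, ← Finset.sum_add_distrib]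
      refine Finset.sum_congr rfl fun i _ => ?_
      simp only [hτ']
      split_ifs with h
      · ring
      · ring
    have himg : (Finset.univ.image (fun i => (ν' i, τ' i))) =
        (Finset.univ.image (fun i => (ν i, τ i))).image
          (fun z => if z.1 = v then (u, q) else z) := by
      rw [Finset.image_image]
      refine Finset.image_congr fun i _ => ?_
      simp only [hν', hτ', Function.comp]
      split_ifs with h
      · rfl
      · rfl
    have hmD : 0 ≤ Fintype.card ι * D := by positivity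
    by_cases hall : ∀ i j, ν i = v → ν j = v → τ i = τ j
    · have hle : (Finset.univ.image (fun i => (ν' i, τ' i))).card ≤
          (Finset.univ.image (fun i => (ν i, τ i))).card := by
        rw [himg]; exact Finset.card_image_le
      have h1 : ∑ i ∈ Finset.univ.filter (fun i => ν i = v), (φ i q - φ i (τ i)) ≤ d v := by
        by_cases hne : ∃ i, ν i = v
        · obtain ⟨i0, hi0⟩ := hne
          calc ∑ i ∈ Finset.univ.filter (fun i => ν i = v), (φ i q - φ i (τ i))
              = ∑ i ∈ Finset.univ.filter (fun i => ν i = v), (φ i q - φ i (τ i0)) := by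
                refine Finset.sum_congr rfl fun i hi => ?_
                rw [hall i i0 (Finset.mem_filter.1 hi).2 hi0]
            _ ≤ dist q (τ i0) := hφ _ _ _
            _ ≤ d v := hd v _ hqv _ (by rw [← hi0]; exact hτ i0)
        · have : Finset.univ.filter (fun i => ν i = v) = ∅ := by
            rw [Finset.filter_eq_empty_iff]
            intro i _ hi
            exact hne ⟨i, hi⟩
          rw [this]; simpa using hd0 v
      have h2 : Fintype.card ι * D *
          (((Finset.univ.image (fun i => (ν' i, τ' i))).card : ℝ) - 1) ≤ Fintype.card ι * D *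
          (((Finset.univ.image (fun i => (ν i, τ i))).card : ℝ) - 1) := by
        apply mul_le_mul_of_nonneg_left _ hmD
        have : ((Finset.univ.image (fun i => (ν' i, τ' i))).card : ℝ) ≤
          ((Finset.univ.image (fun i => (ν i, τ i))).card : ℝ) := by exact_mod_cast hle
        linarith
      linarith
    · push Not at hall
      obtain ⟨i, j, hi, hj, hij⟩ := hall
      have hlt : (Finset.univ.image (fun i => (ν' i, τ' i))).card + 1 ≤
          (Finset.univ.image (fun i => (ν i, τ i))).card := by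
        rw [himg, Nat.add_one_le_iff]
        refine lt_of_le_of_ne Finset.card_image_le fun hEq => ?_
        have hinj := Finset.card_image_iff.1 hEq
        have := @hinj (ν i, τ i)
          (Finset.mem_coe.2 (Finset.mem_image_of_mem _ (Finset.mem_univ i))) (ν j, τ j)
          (Finset.mem_coe.2 (Finset.mem_image_of_mem _ (Finset.mem_univ j))) (by simp [hi, hj])
        exact hij (congrArg Prod.snd this)
      have h1 : ∑ i ∈ Finset.univ.filter (fun i => ν i = v), (φ i q - φ i (τ i)) ≤
          Fintype.card ι * D := by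
        calc ∑ i ∈ Finset.univ.filter (fun i => ν i = v), (φ i q - φ i (τ i))
            ≤ ∑ _i ∈ Finset.univ.filter (fun i => ν i = v), D := by
              refine Finset.sum_le_sum fun i hi => ?_
              refine (hone i _ _).trans ((hd v _ hqv _ ?_).trans (hD v))
              rw [← (Finset.mem_filter.1 hi).2]; exact hτ i
          _ = (Finset.univ.filter (fun i => ν i = v)).card * D := by simp
          _ ≤ Fintype.card ι * D := by
              apply mul_le_mul_of_nonneg_right _ hD0
              exact_mod_cast Finset.card_le_univ _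
      have h2 : Fintype.card ι * D *
          (((Finset.univ.image (fun i => (ν' i, τ' i))).card : ℝ) - 1) + Fintype.card ι * D ≤
          Fintype.card ι * D *
          (((Finset.univ.image (fun i => (ν i, τ i))).card : ℝ) - 1) := by
        have h3 : Fintype.card ι * D *
          (((Finset.univ.image (fun i => (ν' i, τ' i))).card : ℝ) - 1) + Fintype.card ι * D =
          Fintype.card ι * D *
          ((((Finset.univ.image (fun i => (ν' i, τ' i))).card : ℝ) + 1) - 1) := by ring
        rw [h3]
        apply mul_le_mul_of_nonneg_left _ hmD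
        have : ((Finset.univ.image (fun i => (ν' i, τ' i))).card : ℝ) + 1 ≤
          ((Finset.univ.image (fun i => (ν i, τ i))).card : ℝ) := by exact_mod_cast hlt
        linarith
      have := hd0 v
      linarith

/-- The calibration lower bound. -/
theorem calib {ι : Type*} [Fintype ι] [MetricSpace X] [MeasurableSpace X] [BorelSpace X]
    {S : Set X} (hS : IsPreconnected S)
    (φ : ι → X → ℝ) (hφ : ∀ I : Finset ι, ∀ x y, ∑ i ∈ I, (φ i x - φ i y) ≤ dist x y)
    (p : ι → X) (hp : ∀ i, p i ∈ S) (r : X) (hr : r ∈ S) :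
    ENNReal.ofReal (∑ i, (φ i r - φ i (p i))) ≤ Measure.hausdorffMeasure 1 S := by
  classical
  by_contra hcon
  push Not at hcon
  set B : ℝ := ∑ i, (φ i r - φ i (p i)) with hB
  set M : ℝ := (Measure.hausdorffMeasure 1 S : ℝ≥0∞).toReal with hM
  have hfin : (Measure.hausdorffMeasure 1 S : ℝ≥0∞) ≠ ∞ := (hcon.trans ENNReal.ofReal_lt_top).ne
  have hM0 : 0 ≤ M := ENNReal.toReal_nonneg
  have hMB : M < B := by
    have := (ENNReal.lt_ofReal_iff_toReal_lt hfin).1 hcon
    exact this
  set m : ℝ := (Fintype.card ι : ℝ) with hm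
  have hm0 : 0 ≤ m := by positivity
  set ε : ℝ := B - M with hε
  have hε0 : 0 < ε := by linarith
  set δ : ℝ := ε / (4 * (4 + 3 * m ^ 2)) with hδ
  have hδ0 : 0 < δ := by positivity
  have hδε : 4 * δ + 3 * m ^ 2 * δ = ε / 4 := by
    rw [hδ]; field_simp
  have hlt : (Measure.hausdorffMeasure 1 S : ℝ≥0∞) < ENNReal.ofReal (M + ε / 4) := by
    rw [ENNReal.lt_ofReal_iff_toReal_lt hfin]; linarith
  rw [Measure.hausdorffMeasure_apply] at hlt
  have hlt2 : (⨅ (t : ℕ → Set X) (_ : S ⊆ ⋃ n, t n) (_ : ∀ n, Metric.ediam (t n) ≤ ENNReal.ofReal δ),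
      ∑' n, ⨆ _ : (t n).Nonempty, Metric.ediam (t n) ^ (1 : ℝ)) < ENNReal.ofReal (M + ε / 4) := by
    refine lt_of_le_of_lt ?_ hlt
    exact le_iSup₂_of_le (ENNReal.ofReal δ) (ENNReal.ofReal_pos.2 hδ0) le_rfl
  simp only [iInf_lt_iff] at hlt2
  obtain ⟨t, htS, htδ, htsum⟩ := hlt2
  have hsimp : ∀ n, (⨆ _ : (t n).Nonempty, Metric.ediam (t n) ^ (1 : ℝ)) = Metric.ediam (t n) := by
    intro n
    rcases (t n).eq_empty_or_nonempty with h | h
    · simp [h]
    · simp [h]
  simp only [hsimp] at htsum
  have htfin : ∀ n, Metric.ediam (t n) ≠ ∞ := fun n =>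
    ((htδ n).trans_lt ENNReal.ofReal_lt_top).ne
  set η : ℕ → ℝ := fun n => δ * (1 / 2) ^ n with hη
  have hη0 : ∀ n, 0 < η n := fun n => by positivity
  have hηδ : ∀ n, η n ≤ δ := by
    intro n
    have : ((1 : ℝ) / 2) ^ n ≤ 1 := pow_le_one₀ (by norm_num) (by norm_num)
    calc η n = δ * (1 / 2) ^ n := rfl
      _ ≤ δ * 1 := by gcongr
      _ = δ := mul_one _
  set U : ℕ → Set X := fun n => Metric.thickening (η n) (t n) with hU
  have hUo : ∀ n, IsOpen (U n) := fun n => Metric.isOpen_thickening
  have hcov : S ⊆ ⋃ n, U n := htS.trans (iUnion_mono fun n => Metric.self_subset_thickening (hη0 n) _)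
  set d : ℕ → ℝ := fun n => (Metric.ediam (t n)).toReal + 2 * η n with hd
  have hd0 : ∀ n, 0 ≤ d n := fun n => by
    have := hη0 n
    have h2 : 0 ≤ (Metric.ediam (t n)).toReal := ENNReal.toReal_nonneg
    simp only [hd]; linarith
  have hdU : ∀ n, ∀ x ∈ U n, ∀ y ∈ U n, dist x y ≤ d n := by
    intro n x hx y hy
    have h1 : edist x y ≤ Metric.ediam (t n) + 2 * (Real.toNNReal (η n) : ℝ≥0∞) := by
      refine (Metric.edist_le_ediam_of_mem hx hy).trans ?_
      have := Metric.ediam_thickening_le (s := t n) (Real.toNNReal (η n))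
      rwa [Real.coe_toNNReal _ (hη0 n).le] at this
    have h2 : Metric.ediam (t n) + 2 * (Real.toNNReal (η n) : ℝ≥0∞) ≠ ∞ :=
      ENNReal.add_ne_top.2 ⟨htfin n, ENNReal.mul_ne_top (by norm_num) ENNReal.coe_ne_top⟩
    have h3 := (ENNReal.toReal_le_toReal (edist_ne_top x y) h2).2 h1
    rw [ENNReal.toReal_add (htfin n) (ENNReal.mul_ne_top (by norm_num) ENNReal.coe_ne_top),
      ENNReal.toReal_mul, ENNReal.coe_toReal, Real.coe_toNNReal _ (hη0 n).le] at h3
    rw [dist_edist]
    simpa [hd] using h3
  have hdD : ∀ n, d n ≤ 3 * δ := by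
    intro n
    have h1 : (Metric.ediam (t n)).toReal ≤ δ := ENNReal.toReal_le_of_le_ofReal hδ0.le (htδ n)
    have := hηδ n
    simp only [hd]; linarith
  -- nodes of the terminals
  have hnode : ∀ x ∈ S, ∃ n, x ∈ U n := fun x hx => mem_iUnion.1 (hcov hx)
  obtain ⟨a, ha⟩ := hnode r hr
  choose ν hν using fun i => hnode (p i) (hp i)
  obtain ⟨V, hV, hVν⟩ := Conn.exists_all U a ν fun i => chain hS U hUo hcov hr ha (hp i) (hν i)
  have hkey := key U a φ hφ d hdU hd0 (3 * δ) hdD V hV r ha ν p hVν hν
  have hcardle : ((Finset.univ.image (fun i => (ν i, p i))).card : ℝ) ≤ m := by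
    have : (Finset.univ.image (fun i => (ν i, p i))).card ≤ Fintype.card ι :=
      Finset.card_image_le
    rw [hm]; exact_mod_cast this
  have herr : Fintype.card ι * (3 * δ) *
      (((Finset.univ.image (fun i => (ν i, p i))).card : ℝ) - 1) ≤ 3 * m ^ 2 * δ := by
    have h1 : (((Finset.univ.image (fun i => (ν i, p i))).card : ℝ) - 1) ≤ m := by linarith
    calc Fintype.card ι * (3 * δ) *
      (((Finset.univ.image (fun i => (ν i, p i))).card : ℝ) - 1) ≤ m * (3 * δ) * m :=
          mul_le_mul_of_nonneg_left h1 (by positivity)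
      _ = 3 * m ^ 2 * δ := by ring
  have hsumV : ∑ v ∈ V, d v ≤ (M + ε / 4) + 4 * δ := by
    simp only [hd]
    rw [Finset.sum_add_distrib]
    have h1 : ∑ v ∈ V, (Metric.ediam (t v)).toReal ≤ M + ε / 4 := by
      rw [← ENNReal.toReal_sum fun v _ => htfin v]
      apply ENNReal.toReal_le_of_le_ofReal (by linarith)
      exact (ENNReal.sum_le_tsum V).trans htsum.le
    have h2 : ∑ v ∈ V, 2 * η v ≤ 4 * δ := by
      have hs : Summable fun n : ℕ => ((1 : ℝ) / 2) ^ n :=
        summable_geometric_of_lt_one (by norm_num) (by norm_num)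
      have h3 : ∑ v ∈ V, ((1 : ℝ) / 2) ^ v ≤ 2 := by
        have := hs.sum_le_tsum V (fun i _ => by positivity)
        rw [tsum_geometric_two] at this
        exact this
      calc ∑ v ∈ V, 2 * η v = 2 * δ * ∑ v ∈ V, ((1 : ℝ) / 2) ^ v := by
            rw [Finset.mul_sum]
            refine Finset.sum_congr rfl fun v _ => ?_
            simp only [hη]; ring
        _ ≤ 2 * δ * 2 := by gcongr
        _ = 4 * δ := by ring
    linarith
  rw [← hB] at hkey
  linarith

end Pool.Agent.H258R2.Calib
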